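import Pool.Agent.H88.MCR.Stmts3

namespace Pool.MCR

theorem crs_thm (h1 : INB_S) (h2 : PRJ_S) (h3 : LOC_S) (h4 : KIR_S) (h5 : CLR_S) : CRS_S := by
  intro L _ R n D w r hG hw hr y hy hRy
  have hirr : ∀ (a b : L ×ₗ ℤ), ¬ Inter a b a b := fun a b hI =>
    ((h1 _ a b a b).2.2.2 hI).2.1 rfl
  rw [h5 L R n D w y r hG hw hy hRy]
  obtain ⟨-, -, -, hmem, hdis⟩ := (h4 L R n D hG).1 w hw y hy hRy
  have h7 := (h3 L).2.2.2.2.2.2
  -- a small arc does not cross the image of an old arc
  have hsm : ∀ B ∈ D.A w y, D.S w y = true →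
      ¬ Cross ((false, lp (D.pos w) 1, lp (D.pos w) (- r y)) : Arc (L ×ₗ ℤ))
        (la D w r y B) := by
    rintro ⟨t, a, b⟩ hB hS hC
    obtain ⟨hs, hI⟩ := hC
    have ht : t = false := by
      simpa [la] using hs.symm
    subst ht
    have hm := hmem _ _ _ hB
    have hb : b ≠ D.pos w := hm.2.2.2.1
    have ha : a ≠ D.pos w := by
      intro h
      have := (hm.2.2.2.2.2 h).1
      rw [hS] at this
      exact Bool.noConfusion this
    exact h7 (D.pos w) a b _ _ _ _ ha.symm hb.symm hI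
  have hcomm : ∀ A B : Arc (L ×ₗ ℤ), Cross A B → Cross B A := by
    rintro A B ⟨hs, hI⟩
    exact ⟨hs.symm, ((h1 _ _ _ _ _).2.2.1).1 hI⟩
  intro A hA B hB hC
  rw [List.mem_append] at hA hB
  rcases hA with hA | hA
  · by_cases hS : D.S w y = true
    · rw [if_pos hS, List.mem_singleton] at hA
      subst hA
      rcases hB with hB | hB
      · rw [if_pos hS, List.mem_singleton] at hB
        subst hB
        exact hirr _ _ hC.2
      · obtain ⟨B', hB', rfl⟩ := List.mem_map.1 hB
        exact hsm B' hB' hS hC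
    · rw [if_neg hS] at hA
      exact absurd hA (List.not_mem_nil)
  · obtain ⟨A', hA', rfl⟩ := List.mem_map.1 hA
    rcases hB with hB | hB
    · by_cases hS : D.S w y = true
      · rw [if_pos hS, List.mem_singleton] at hB
        subst hB
        exact hsm A' hA' hS (hcomm _ _ hC)
      · rw [if_neg hS] at hB
        exact absurd hB (List.not_mem_nil)
    · obtain ⟨B', hB', rfl⟩ := List.mem_map.1 hB
      obtain ⟨t, a, b⟩ := A'
      obtain ⟨t', c, d⟩ := B'
      obtain ⟨hs, hI⟩ := hC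
      have hs' : t = t' := hs
      subst hs'
      by_cases hab : a = c ∧ b = d
      · obtain ⟨rfl, rfl⟩ := hab
        exact hirr _ _ hI
      · obtain ⟨e1, e2, e3, e4⟩ := hdis _ _ _ _ _ hA' hB' hab
        have hI' : Inter a b c d := (h2 L a b c d _ _ _ _ e1 e2 e3 e4).1 hI
        exact hG.self w hw y hy hRy _ hA' _ hB' ⟨rfl, hI'⟩

end Pool.MCR
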